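import Pool.Agent.H741.RS.Stm

/-!
# Project RS, statement DEG2: the degree of a rational sphere map with finite source group is at least 3
-/

set_option autoImplicit false
open scoped ComplexConjugate

namespace Pool.Agent.H235.RS

open Pool.Agent.H741.RS

theorem hp_add_left {n : ℕ} (x y z : V n) : hp (x + y) z = hp x z + hp y z := by
  simp [hp]

theorem hp_smul_left {n : ℕ} (c : ℂ) (x z : V n) : hp (c • x) z = c * hp x z := by
  simp [hp]

theorem hp_conj {n : ℕ} (x y : V n) : conj (hp x y) = hp y x := by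
  simp [hp]

theorem J_conj {n : ℕ} (X Y : ℂ × V n) : conj (J X Y) = J Y X := by
  simp only [J, map_sub, map_mul, hp_conj, Complex.conj_conj]
  ring

theorem J_add_left {n : ℕ} (X Y Z : ℂ × V n) : J (X + Y) Z = J X Z + J Y Z := by
  simp only [J, Prod.fst_add, Prod.snd_add, hp_add_left]
  ring

theorem J_smul_left {n : ℕ} (c : ℂ) (X Z : ℂ × V n) : J (c • X) Z = c * J X Z := by
  simp only [J, Prod.smul_fst, Prod.smul_snd, hp_smul_left, smul_eq_mul]
  ring

theorem J_add_right {n : ℕ} (X Y Z : ℂ × V n) : J X (Y + Z) = J X Y + J X Z := by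
  rw [← J_conj, J_add_left, map_add, J_conj, J_conj]

theorem J_smul_right {n : ℕ} (c : ℂ) (X Z : ℂ × V n) : J X (c • Z) = conj c * J X Z := by
  rw [← J_conj, J_smul_left, map_mul, J_conj]

theorem J_sum_left {n : ℕ} {ι : Type*} (s : Finset ι) (X : ι → ℂ × V n) (Z : ℂ × V n) :
    J (∑ i ∈ s, X i) Z = ∑ i ∈ s, J (X i) Z := by
  classical
  induction s using Finset.induction_on with
  | empty => simp [J, hp]
  | insert a s ha ih => rw [Finset.sum_insert ha, Finset.sum_insert ha, J_add_left, ih]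

theorem J_one {n : ℕ} (z w : V n) : J ((1 : ℂ), z) ((1 : ℂ), w) = 1 - hp z w := by
  simp [J]

/-- a polynomial of degree at most one is the restriction of a linear functional -/
theorem exists_functional {n : ℕ} (P : MvPolynomial (Fin n) ℂ) (hP : P.totalDegree ≤ 1) :
    ∃ L : (ℂ × V n) →ₗ[ℂ] ℂ, ∀ z : V n, L ((1 : ℂ), z) = ev P z := by
  classical
  have key : ∀ d ∈ P.support, ∃ L : (ℂ × V n) →ₗ[ℂ] ℂ, ∀ z : V n,
      L ((1 : ℂ), z) = ∏ i ∈ d.support, (z i) ^ (d i) := by
    intro d hd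
    have h1 : (d.sum fun _ e => e) ≤ 1 := (MvPolynomial.le_totalDegree hd).trans hP
    by_cases h0 : d = 0
    · refine ⟨LinearMap.fst ℂ ℂ (V n), fun z => ?_⟩
      simp [h0]
    · obtain ⟨i, hi⟩ : ∃ i, i ∈ d.support := by
        by_contra hne
        push Not at hne
        exact h0 (Finsupp.support_eq_empty.1 (Finset.eq_empty_of_forall_notMem hne))
      have hi' : 1 ≤ d i := Nat.one_le_iff_ne_zero.2 (Finsupp.mem_support_iff.1 hi)
      have hs : d.support = {i} := by
        refine Finset.eq_singleton_iff_unique_mem.2 ⟨hi, fun j hj => ?_⟩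
        by_contra hji
        have hj' : 1 ≤ d j := Nat.one_le_iff_ne_zero.2 (Finsupp.mem_support_iff.1 hj)
        have : d i + d j ≤ d.sum fun _ e => e := by
          rw [Finsupp.sum, ← Finset.sum_pair (fun h => hji h.symm)]
          apply Finset.sum_le_sum_of_subset
          intro k hk
          simp only [Finset.mem_insert, Finset.mem_singleton] at hk
          rcases hk with rfl | rfl
          · exact hi
          · exact hj
        omega
      have hdi : d i = 1 := by
        have : d i ≤ d.sum fun _ e => e := by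
          rw [Finsupp.sum, hs]; simp
        omega
      refine ⟨(EuclideanSpace.proj i : V n →L[ℂ] ℂ).toLinearMap ∘ₗ LinearMap.snd ℂ ℂ (V n), fun z => ?_⟩
      simp [hs, hdi]
  choose! L hL using key
  refine ⟨∑ d ∈ P.support, P.coeff d • L d, fun z => ?_⟩
  rw [ev, MvPolynomial.eval_eq, LinearMap.sum_apply]
  refine Finset.sum_congr rfl fun d hd => ?_
  rw [LinearMap.smul_apply, hL d hd, smul_eq_mul]

/-- representation of a linear functional by the form `J` -/
theorem exists_rep {n : ℕ} (L : (ℂ × V n) →ₗ[ℂ] ℂ) : ∃ v : ℂ × V n, ∀ b, J v b = conj (L b) := by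
  let φ : V n →ₗ[ℂ] ℂ := L ∘ₗ LinearMap.inr ℂ ℂ (V n)
  let v' : V n := (InnerProductSpace.toDual ℂ (V n)).symm (LinearMap.toContinuousLinearMap φ)
  have hv' : ∀ x : V n, hp x v' = L ((0 : ℂ), x) := by
    intro x
    change inner ℂ ((InnerProductSpace.toDual ℂ (V n)).symm (LinearMap.toContinuousLinearMap φ)) x = _
    rw [InnerProductSpace.toDual_symm_apply]
    simp [φ]
  refine ⟨(conj (L ((1 : ℂ), 0)), -v'), fun b => ?_⟩
  have hb : b = b.1 • ((1 : ℂ), (0 : V n)) + ((0 : ℂ), b.2) := by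
    ext <;> simp
  have h2 : L b = b.1 * L ((1 : ℂ), 0) + L ((0 : ℂ), b.2) := by
    conv_lhs => rw [hb]
    rw [map_add, map_smul, smul_eq_mul]
  rw [← J_conj, h2]
  congr 1
  simp only [J, Complex.conj_conj]
  rw [← hv' b.2]
  have : hp b.2 (-v') = - hp b.2 v' := by simp [hp]
  rw [this]; ring

theorem t_DEG2 (h1 : S_DIVI) (h2 : S_CAY) (h3 : S_TOG) (h4 : S_GLUE) (h5 : S_PRES) : S_DEG2 := by
  intro n N f G _ hn hG
  by_contra hdeg
  push Not at hdeg
  obtain ⟨hd1, u, ⟨m, a, b, hab, hu⟩, hherm, hJ⟩ := h1 n N f hn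
  have hda : ∀ i, (a i).totalDegree ≤ 1 := fun i => (hab i).1.trans (by omega)
  have hdb : ∀ i, (b i).totalDegree ≤ 1 := fun i => (hab i).2.trans (by omega)
  choose La hLa using fun i => exists_functional (a i) (hda i)
  choose Lb hLb using fun i => exists_functional (b i) (hdb i)
  choose v hv using fun i => exists_rep (Lb i)
  let X : (ℂ × V n) →ₗ[ℂ] (ℂ × V n) := ∑ i, (La i).smulRight (v i)
  have hX : ∀ p q : ℂ × V n, J (X p) q = ∑ i, La i p * conj (Lb i q) := by
    intro p q
    simp only [X, LinearMap.sum_apply, LinearMap.smulRight_apply]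
    rw [J_sum_left]
    refine Finset.sum_congr rfl fun i _ => ?_
    rw [J_smul_left, hv]
  have hXu : ∀ z w : V n, J (X ((1 : ℂ), z)) ((1 : ℂ), w) = u z w := by
    intro z w
    rw [hX, hu]
    refine Finset.sum_congr rfl fun i _ => ?_
    rw [hLa, hLb]
  have hbase : ∀ z w : V n, J (X ((1 : ℂ), z)) ((1 : ℂ), w) = J ((1 : ℂ), z) (X ((1 : ℂ), w)) := by
    intro z w
    rw [hXu, ← J_conj, hXu, hherm w z, ]
  have hdec : ∀ p : ℂ × V n, p = p.1 • ((1 : ℂ), (0 : V n)) + (((1 : ℂ), p.2) + (-1 : ℂ) • ((1 : ℂ), (0 : V n))) := by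
    intro p
    ext <;> simp
  have hself1 : ∀ (p : ℂ × V n) (w : V n), J (X p) ((1 : ℂ), w) = J p (X ((1 : ℂ), w)) := by
    intro p w
    rw [hdec p]
    simp only [map_add, map_smul, J_add_left, J_smul_left, hbase]
  have hself : ∀ p q : ℂ × V n, J (X p) q = J p (X q) := by
    intro p q
    rw [hdec q]
    simp only [map_add, map_smul, J_add_right, J_smul_right, hself1]
  -- maps which commute with X are in the source group
  have hin : ∀ A : (ℂ × V n) →ₗ[ℂ] (ℂ × V n), PresJ A → A ∘ₗ X = X ∘ₗ A → InGamma f (frac A) := by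
    intro A hA hAX
    refine h3 n N f 2 A hA fun z hz w hw => ?_
    obtain ⟨_, hP⟩ := h5 n A hA
    obtain ⟨_, _, hz3, _⟩ := hP z hz
    obtain ⟨_, _, hw3, _⟩ := hP w hw
    have e1 : (A (1, z)).1 * conj ((A (1, w)).1) * (1 - hp (frac A z) (frac A w)) = 1 - hp z w := by
      rw [← J_one (frac A z) (frac A w), ← J_one z w, ← hA (1, z) (1, w)]
      conv_rhs => rw [hz3, hw3]
      rw [J_smul_left, J_smul_right]; ring
    have e2 : (A (1, z)).1 * conj ((A (1, w)).1) * u (frac A z) (frac A w) = u z w := by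
      rw [← hXu (frac A z) (frac A w), ← hXu z w, ← hA (X (1, z)) (1, w)]
      have hc : A (X (1, z)) = X (A (1, z)) := LinearMap.congr_fun hAX (1, z)
      rw [hc]
      conv_rhs => rw [hz3, hw3]
      rw [map_smul, J_smul_left, J_smul_right]; ring
    rw [hJ, hJ, map_pow, ← e1, ← e2]; ring
  -- a non-scalar self-adjoint map, such that commuting with it implies commuting with X
  obtain ⟨X', hX'1, hX'2, hX'3⟩ : ∃ X' : (ℂ × V n) →ₗ[ℂ] (ℂ × V n), (∀ p q, J (X' p) q = J p (X' q)) ∧
      (¬ ∃ c : ℂ, X' = c • LinearMap.id) ∧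
      ∀ A : (ℂ × V n) →ₗ[ℂ] (ℂ × V n), A ∘ₗ X' = X' ∘ₗ A → A ∘ₗ X = X ∘ₗ A := by
    by_cases hsc : ∃ c : ℂ, X = c • LinearMap.id
    · obtain ⟨c, hc⟩ := hsc
      refine ⟨LinearMap.inl ℂ ℂ (V n) ∘ₗ LinearMap.fst ℂ ℂ (V n), ?_, ?_, ?_⟩
      · intro p q
        simp [J, hp]
      · rintro ⟨c', hc'⟩
        have t1 := LinearMap.congr_fun hc' ((1 : ℂ), (0 : V n))
        have t2 := LinearMap.congr_fun hc' ((0 : ℂ), EuclideanSpace.single (⟨0, hn⟩ : Fin n) (1 : ℂ))
        have t1' : (1 : ℂ) = c' := by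
          have := congrArg Prod.fst t1
          simpa using this
        have t2' := congrArg Prod.snd t2
        simp only [LinearMap.coe_comp, Function.comp_apply, LinearMap.fst_apply, LinearMap.inl_apply,
          LinearMap.smul_apply, LinearMap.id_coe, id_eq, Prod.smul_snd] at t2'
        rw [← t1', one_smul] at t2'
        have t3 := congrArg (fun x : V n => x ⟨0, hn⟩) t2'
        simp at t3
      · intro A _
        rw [hc]
        exact LinearMap.ext fun p => by simp
    · exact ⟨X, hself, hsc, fun A hA => hA⟩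
  obtain ⟨A, hA1, hA2, hA3⟩ := h2 n X' hX'1 hX'2
  have hU : ∀ k : ℕ, ∃ U : G, ∀ z ∈ Bn n, frac (A k) z = U.1 z := by
    intro k
    obtain ⟨U, hUG, hUz⟩ := (hG (frac (A k))).1 (hin (A k) (hA1 k) (hX'3 (A k) (hA2 k)))
    exact ⟨⟨U, hUG⟩, hUz⟩
  choose U hU using hU
  obtain ⟨k, l, hkl, hUkl⟩ := Finite.exists_ne_map_eq_of_infinite U
  refine hA3 k l hkl (h4 n (A k) (A l) (hA1 k) (hA1 l) fun z hz => ?_)
  rw [hU k z hz, hU l z hz, hUkl]

end Pool.Agent.H235.RS
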